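import Pool.Agent.helper5.PR.SpecX

/-!
# pr:X-CNL
-/

set_option autoImplicit false

namespace Pool.Agent.PR

open Matrix

theorem X_CNL_transfer {P Q : Type} [Group P] [Group Q] (e : P ≃* Q) (c : ℕ) (h : NilC c P) :
    NilC c Q := by
  obtain ⟨h1, h2, h3⟩ := h
  refine ⟨?_, ?_, ?_⟩
  · haveI := h1
    exact Group.nilpotent_of_mulEquiv e
  · intro g hg k hk hgk
    apply h2 (e.symm g) (by simpa using hg) k hk
    rw [← map_pow, hgk, map_one]
  · intro h
    apply h3
    have h4 := Subgroup.map_lowerCentralSeries (⊤ : Subgroup P) e.toMonoidHom c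
    rw [Subgroup.map_top_of_surjective _ e.surjective, h] at h4
    exact (Subgroup.map_eq_bot_iff_of_injective _ e.injective).1 h4

theorem X_CNL_inj (n m : ℕ) : Function.Injective (incI n m) := by
  intro a b h
  ext i j
  have h1 := congrArg (fun x : SLI n m =>
    ((x : Matrix (Fin n) (Fin n) (ZI m)) i j : ZI m)) h
  have h2 : algebraMap ℤ (ZI m) ((a : Matrix (Fin n) (Fin n) ℤ) i j) =
      algebraMap ℤ (ZI m) ((b : Matrix (Fin n) (Fin n) ℤ) i j) := h1
  have h3 := congrArg (fun x : ZI m => (x : ℚ)) h2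
  simpa using h3

theorem X_CNL (hUNI : X_UNI_stmt) : X_CNL_stmt := by
  intro n hn m d _ _ L _ Φ _ hker
  obtain ⟨P, hP, hPc⟩ := hUNI n hn
  let f : SLZ n →* L := Φ.comp ((incI n m).prod (1 : SLZ n →* SLd n d))
  have hf : ∀ g : SLZ n, f g = Φ (incI n m g, 1) := fun g => rfl
  have hinj : Function.Injective (f.comp P.subtype) := by
    rw [injective_iff_map_eq_one]
    intro g hg
    have h1 : (incI n m (g : SLZ n), (1 : SLd n d)) ∈ Φ.ker := hg
    have h2 := hker h1
    rw [Subgroup.mem_center_iff] at h2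
    have h3 : (g : SLZ n) ∈ Subgroup.center (SLZ n) := by
      rw [Subgroup.mem_center_iff]
      intro x
      apply X_CNL_inj n m
      have h4 := congrArg Prod.fst (h2 (incI n m x, 1))
      rw [map_mul, map_mul]
      exact h4
    have h5 : (g : SLZ n) ∈ P ⊓ Subgroup.center (SLZ n) := ⟨g.2, h3⟩
    rw [hPc, Subgroup.mem_bot] at h5
    exact Subtype.ext h5
  exact ⟨(f.comp P.subtype).range, X_CNL_transfer (MonoidHom.ofInjective hinj) _ hP⟩

end Pool.Agent.PR
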