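import Pool.Agent.helper48.PR.SpecC

/-!
# Module C8 of project pr: a basis of weight vectors
-/

set_option autoImplicit false

namespace Pool.Agent.PR

open Matrix

theorem C8_hh_self {n : ℕ} {F : Type} [Field F] (M : Fin n → Fin n → Matrix (Fin n) (Fin n) F)
    (i : Fin n) : hh M i i = 0 := by
  unfold hh
  rw [sub_self]

theorem C8_weight {n : ℕ} {F : Type} [Field F] (M : Fin n → Fin n → Matrix (Fin n) (Fin n) F)
    (σ : Equiv.Perm (Fin n)) (w : Matrix (Fin n) (Fin n) F)
    (hw : ∀ i j, i ≠ j → w * hh M i j = hh M (σ i) (σ j) * w) (v a : Fin n → F)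
    (hv : ∀ i j, i ≠ j → hh M i j *ᵥ v = (a i - a j) • v) (i j : Fin n) :
    hh M i j *ᵥ (w *ᵥ v) = (a (σ.symm i) - a (σ.symm j)) • (w *ᵥ v) := by
  by_cases hij : i = j
  · rw [hij, C8_hh_self, sub_self, zero_smul, Matrix.zero_mulVec]
  · have h1 : σ.symm i ≠ σ.symm j := fun h => hij (σ.symm.injective h)
    have h2 := hw (σ.symm i) (σ.symm j) h1
    rw [Equiv.apply_symm_apply, Equiv.apply_symm_apply] at h2
    rw [Matrix.mulVec_mulVec, ← h2, ← Matrix.mulVec_mulVec, hv _ _ h1, Matrix.mulVec_smul]

theorem C8_ne {n : ℕ} {F : Type} [Field F] (w w' : Matrix (Fin n) (Fin n) F) (h : w' * w = 1)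
    (v : Fin n → F) (hv : v ≠ 0) : w *ᵥ v ≠ 0 := by
  intro h0
  apply hv
  have h1 : w' *ᵥ (w *ᵥ v) = 0 := by rw [h0, Matrix.mulVec_zero]
  rwa [Matrix.mulVec_mulVec, h, Matrix.one_mulVec] at h1

theorem C8 (hC7 : C7_stmt) (hC8a : C8a_stmt) : C8_stmt := by
  intro n hn F _ _ M hM hw v a hv0 hane hv
  choose w w' hw1 hw2 hw3 using hw
  rcases hC7 n hn F a hane with ⟨i₀, x, y, hxy, ha⟩ | ⟨T, hT, hTinj⟩
  · refine ⟨fun l => w (Equiv.swap i₀ l) *ᵥ v, x - y, ?_, sub_ne_zero.2 hxy, ?_⟩
    · refine hC8a n F (Fin n × Fin n) (Fin n) (fun t => hh M t.1 t.2)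
        (fun l => w (Equiv.swap i₀ l) *ᵥ v)
        (fun l t => a ((Equiv.swap i₀ l).symm t.1) - a ((Equiv.swap i₀ l).symm t.2)) ?_ ?_ ?_
      · intro l
        exact C8_ne _ (w' (Equiv.swap i₀ l)) (hw2 _) v hv0
      · intro l t
        exact C8_weight M (Equiv.swap i₀ l) (w (Equiv.swap i₀ l)) (hw3 _) v a hv t.1 t.2
      · intro k l hkl
        refine ⟨(k, l), ?_⟩
        have e1 : a ((Equiv.swap i₀ k).symm k) = x := by
          rw [Equiv.symm_swap, Equiv.swap_apply_right, ha, if_pos rfl]
        have e2 : a ((Equiv.swap i₀ k).symm l) = y := by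
          rw [Equiv.symm_swap, ha, if_neg]
          intro h
          apply hkl
          have := congrArg (Equiv.swap i₀ k) h
          rw [Equiv.swap_apply_self, Equiv.swap_apply_left] at this
          exact this.symm
        have e3 : a ((Equiv.swap i₀ l).symm l) = x := by
          rw [Equiv.symm_swap, Equiv.swap_apply_right, ha, if_pos rfl]
        have e4 : a ((Equiv.swap i₀ l).symm k) = y := by
          rw [Equiv.symm_swap, ha, if_neg]
          intro h
          apply hkl
          have := congrArg (Equiv.swap i₀ l) h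
          rw [Equiv.swap_apply_self, Equiv.swap_apply_left] at this
          exact this
        show a ((Equiv.swap i₀ k).symm k) - a ((Equiv.swap i₀ k).symm l) ≠
          a ((Equiv.swap i₀ l).symm k) - a ((Equiv.swap i₀ l).symm l)
        rw [e1, e2, e3, e4]
        intro h
        apply hxy
        have h2 : (2 : F) * (x - y) = 0 := by linear_combination h
        rcases mul_eq_zero.1 h2 with h3 | h3
        · exact absurd h3 two_ne_zero
        · exact sub_eq_zero.1 h3
    · intro i j hij l
      have h1 := C8_weight M (Equiv.swap i₀ l) (w (Equiv.swap i₀ l)) (hw3 _) v a hv i j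
      refine h1.trans ?_
      have key : ∀ p : Fin n, a ((Equiv.swap i₀ l).symm p) = y + if l = p then x - y else 0 := by
        intro p
        rw [Equiv.symm_swap, ha]
        by_cases hp : l = p
        · rw [if_pos hp, ← hp, Equiv.swap_apply_right, if_pos rfl]
          ring
        · rw [if_neg hp, add_zero, if_neg]
          intro h
          apply hp
          have := congrArg (Equiv.swap i₀ l) h
          rw [Equiv.swap_apply_self, Equiv.swap_apply_left] at this
          exact this.symm
      rw [key i, key j]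
      congr 1
      ring
  · exfalso
    have hli : LinearIndependent F (fun σ : {σ // σ ∈ T} => w σ.1.symm *ᵥ v) := by
      refine hC8a n F (Fin n × Fin n) {σ // σ ∈ T} (fun t => hh M t.1 t.2)
        (fun σ => w σ.1.symm *ᵥ v) (fun σ t => a (σ.1 t.1) - a (σ.1 t.2)) ?_ ?_ ?_
      · intro σ
        exact C8_ne _ (w' σ.1.symm) (hw2 _) v hv0
      · intro σ t
        have := C8_weight M σ.1.symm (w σ.1.symm) (hw3 _) v a hv t.1 t.2
        rwa [Equiv.symm_symm] at this
      · intro σ τ hστ
        by_contra hcon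
        push Not at hcon
        apply hστ
        apply Subtype.ext
        apply hTinj σ.1 σ.2 τ.1 τ.2
        have hpos : 0 < n := by omega
        refine ⟨a (σ.1 ⟨0, hpos⟩) - a (τ.1 ⟨0, hpos⟩), fun i => ?_⟩
        have h1 := hcon (i, ⟨0, hpos⟩)
        simp only at h1
        linear_combination h1
    have h2 := hli.fintype_card_le_finrank
    rw [Module.finrank_fintype_fun_eq_card, Fintype.card_fin, Fintype.card_coe] at h2
    omega

end Pool.Agent.PR
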